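import Mathlib

set_option autoImplicit false

namespace Pool.Agent.Results.MP_7cc4cd_co.CounterQ2

variable {V : Type}

/-- total domination number -/
noncomputable def gammaT (G : SimpleGraph V) : ℕ :=
  sInf {n | ∃ S : Finset V, S.card = n ∧ ∀ v, ∃ u ∈ S, G.Adj v u}

/-- matching number -/
noncomputable def alpha' (G : SimpleGraph V) : ℕ :=
  sSup {n | ∃ M : Finset (Sym2 V), M.card = n ∧ (∀ e ∈ M, e ∈ G.edgeSet) ∧
    ∀ e ∈ M, ∀ f ∈ M, e ≠ f → ∀ v ∈ e, v ∉ f}

/-- `v` lies in a triangle -/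
def InTri (G : SimpleGraph V) (v : V) : Prop := ∃ a b, G.Adj v a ∧ G.Adj v b ∧ G.Adj a b

def L : List (Fin 7 × Fin 7) := [(0, 1), (1, 2), (2, 3), (3, 4), (3, 5), (4, 5), (4, 6), (5, 6)]

def G : SimpleGraph (Fin 7) where
  Adj a b := (a, b) ∈ L ∨ (b, a) ∈ L
  symm := ⟨fun _ _ => Or.symm⟩
  loopless := ⟨by decide⟩

instance : DecidableRel G.Adj := fun a b => inferInstanceAs (Decidable ((a, b) ∈ L ∨ (b, a) ∈ L))

theorem result : ∃ G : SimpleGraph (Fin 7), G.Connected ∧ {v | ¬ InTri G v}.ncard ≤ 3 ∧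
    alpha' G < gammaT G := by
  have r : ∀ a b, G.Adj a b → G.Reachable 3 a → G.Reachable 3 b := fun a b h k => k.trans h.reachable
  have r2 := r 3 2 (by decide) .rfl
  have r1 := r 2 1 (by decide) r2
  have r4 := r 3 4 (by decide) .rfl
  refine ⟨G, (SimpleGraph.connected_iff_exists_forall_reachable _).2 ⟨3, fun v => by
    fin_cases v
    exacts [r 1 0 (by decide) r1, r1, r2, .rfl, r4, r 3 5 (by decide) .rfl, r 4 6 (by decide) r4]⟩, ?_, lt_of_le_of_lt (b := 3) (csSup_le' ?_) ?_⟩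
  · refine (Set.ncard_le_ncard (t := ({0, 1, 2} : Finset (Fin 7))) (fun v => ?_)).trans (by simp)
    unfold InTri; revert v; decide +kernel
  · rintro _ ⟨M, rfl, h1, h2⟩
    have := Finset.card_le_univ (M.biUnion Sym2.toFinset)
    rw [Finset.card_biUnion fun e he f hf h => Finset.disjoint_left.2 fun v a b =>
      h2 e he f hf h v (Sym2.mem_toFinset.1 a) (Sym2.mem_toFinset.1 b), Finset.sum_congr rfl fun e he =>
      Sym2.card_toFinset_of_not_isDiag e (G.not_isDiag_of_mem_edgeSet (h1 e he))] at this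
    simp at this
    omega
  · refine Nat.lt_iff_add_one_le.2 (le_csInf ⟨7, Finset.univ, rfl, by decide +kernel⟩ ?_)
    rintro _ ⟨S, rfl, h⟩
    revert S; decide +kernel

end Pool.Agent.Results.MP_7cc4cd_co.CounterQ2
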